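import Mathlib

/-!
# MP_0f91f8_co, collision theorem: the interfaces between the parts

(A) `U3` (helper40): correlations of an aperiodic function along four linear forms, `St_A`.
(B) `GK` (helper75, helper68): Gaussian Katai, `St_B`. `St_A → St_B`, and `St_A → St_A'`.
(C) `ST` (helper86, helper7, helper83): the family of boxes and the structured part, `St_C`.
(D), (E) `EF` (helper79, helper48): ergodic frame and conclusion, `St_D`.

The final theorems: `Final_Col` (colourings), `Final_Set` (one set), both from `Final_Gen`.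
-/

set_option autoImplicit false

open Filter Topology

noncomputable section

namespace Pool.Agent.Work.MP_0f91f8_co.COL

/-! ### Multiplicative functions -/

/-- Completely multiplicative functions with values of absolute value one on the positive
integers (and `f 0 = 0`). -/
structure IsCM (f : ℕ → ℂ) : Prop where
  zero : f 0 = 0
  one : f 1 = 1
  mul : ∀ m n, f (m * n) = f m * f n
  norm : ∀ n, 0 < n → ‖f n‖ = 1

/-- Aperiodic: the mean over every arithmetic progression is zero. -/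
def Aper (f : ℕ → ℂ) : Prop := ∀ q a : ℕ, 0 < q →
  Tendsto (fun N : ℕ => (∑ n ∈ Finset.range N, f (q * n + a)) / N) atTop (𝓝 0)

/-- The sum of the three pair correlations of the triple `m² - n², 2mn, m² + n²` (`n < m`). -/
def cor (f : ℕ → ℂ) (m n : ℕ) : ℂ :=
  f (m ^ 2 - n ^ 2) * (starRingEnd ℂ) (f (2 * m * n)) +
  f (m ^ 2 - n ^ 2) * (starRingEnd ℂ) (f (m ^ 2 + n ^ 2)) +
  f (2 * m * n) * (starRingEnd ℂ) (f (m ^ 2 + n ^ 2))

/-! ### Boxes -/

/-- The mean of `F` over the pairs `m = D u + a`, `n = D v + b`,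
`2^j N ≤ u < 2^(j+1) N`, `N ≤ v < 2 N`. -/
def bm (D a b j N : ℕ) (F : ℕ → ℕ → ℂ) : ℂ :=
  (∑ u ∈ Finset.Ico (2 ^ j * N) (2 ^ (j + 1) * N), ∑ v ∈ Finset.Ico N (2 * N),
    F (D * u + a) (D * v + b)) / (2 ^ j * N * N : ℕ)

/-- A nonempty finite family of boxes, all of the same weight: modulus `D`, residues `a, b < D`, and
scale `j`. -/
structure Bx where
  ι : Type
  fin : Fintype ι
  ne : Nonempty ι
  D : ι → ℕ
  a : ι → ℕ
  b : ι → ℕ
  j : ι → ℕ
  hD : ∀ i, 0 < D i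
  ha : ∀ i, a i < D i
  hb : ∀ i, b i < D i
  hj : ∀ i, 2 ≤ j i

/-- The mean of `F` over the family `S` at scale `N`. -/
def fm (S : Bx) (N : ℕ) (F : ℕ → ℕ → ℂ) : ℂ :=
  letI := S.fin
  (∑ i : S.ι, bm (S.D i) (S.a i) (S.b i) (S.j i) N F) / (Fintype.card S.ι : ℂ)

/-! ### The parts -/

/-- (A), helper40: correlations of an aperiodic function along four linear forms on `ℤ²`; the other
three functions are arbitrary with values in the unit disc (uniformly). The sum is over the square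
`|v₁|, |v₂| ≤ C N`. The progression `n ≡ c mod q` and the interval `[α, β]` are attached to `f`. -/
def St_A : Prop := ∀ f : ℕ → ℂ, IsCM f → Aper f → ∀ L : Fin 4 → ℤ × ℤ,
  (∀ i j, i ≠ j → (L i).1 * (L j).2 ≠ (L i).2 * (L j).1) → ∀ (C q : ℕ) (c : ℤ), 0 < q →
  ∀ ε : ℝ, 0 < ε → ∀ᶠ N : ℕ in atTop, ∀ (f₁ f₂ f₃ : ℤ → ℂ) (α β : ℤ),
  (∀ n, ‖f₁ n‖ ≤ 1) → (∀ n, ‖f₂ n‖ ≤ 1) → (∀ n, ‖f₃ n‖ ≤ 1) →
  (∀ n, f₁ n ≠ 0 → |n| ≤ C * N) → (∀ n, f₂ n ≠ 0 → |n| ≤ C * N) →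
  (∀ n, f₃ n ≠ 0 → |n| ≤ C * N) →
  ∀ E : Finset (ℤ × ℤ), (∀ v : ℤ × ℤ, |(L 0).1 * v.1 + (L 0).2 * v.2| ≤ C * N →
    |(L 1).1 * v.1 + (L 1).2 * v.2| ≤ C * N → v ∈ E) →
  ‖∑ v ∈ E, f₁ ((L 0).1 * v.1 + (L 0).2 * v.2) * f₂ ((L 1).1 * v.1 + (L 1).2 * v.2) *
      f₃ ((L 2).1 * v.1 + (L 2).2 * v.2) *
      (if α ≤ (L 3).1 * v.1 + (L 3).2 * v.2 ∧ (L 3).1 * v.1 + (L 3).2 * v.2 ≤ β ∧
          (q : ℤ) ∣ (L 3).1 * v.1 + (L 3).2 * v.2 - c
        then f ((L 3).1 * v.1 + (L 3).2 * v.2).natAbs else 0)‖ ≤ ε * (N : ℝ) ^ 2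

/-- (B), Gaussian Katai together with the pair `x, y`: for an aperiodic function the sum of the pair
correlations tends to zero on every box. -/
def St_B : Prop := ∀ f : ℕ → ℂ, IsCM f → Aper f → ∀ D a b j : ℕ, 0 < D → a < D → b < D → 2 ≤ j →
  Tendsto (fun N : ℕ => bm D a b j N (cor f)) atTop (𝓝 0)

/-- (C), the structured part: there are families of boxes such that for every `f` which is not
aperiodic the mean of the correlations has nonnegative lower limit (`N → ∞` first, then `B → ∞`,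
then `K → ∞`). -/
def St_C : Prop := ∃ S : ℕ → ℕ → Bx, ∀ f : ℕ → ℂ, IsCM f → ¬ Aper f → ∀ ε : ℝ, 0 < ε →
  ∀ᶠ K : ℕ in atTop, ∀ᶠ B : ℕ in atTop, ∀ᶠ N : ℕ in atTop, -ε ≤ (fm (S K B) N (cor f)).re

/-! ### Invariant means and the final theorems -/

/-- Multiplicatively invariant means on the positive integers: finitely additive probability
measures on all sets, invariant under dilations (`0` has no mass). -/
structure IsInvMean (m : Set ℕ → ℝ) : Prop where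
  nonneg : ∀ A, 0 ≤ m A
  univ : m Set.univ = 1
  zero : m {0} = 0
  union : ∀ A B, Disjoint A B → m (A ∪ B) = m A + m B
  dil : ∀ k : ℕ, 0 < k → ∀ A, m {n | k * n ∈ A} = m A

/-- The general inequality: for finitely many sets there is a single Pythagorean triple along which
the pair returns are on average as large as for independent sets. -/
def Final_Gen : Prop := ∀ m : Set ℕ → ℝ, IsInvMean m → ∀ (r : ℕ) (A : Fin r → Set ℕ) (ε : ℝ), 0 < ε →
  ∃ x y z : ℕ, 0 < x ∧ 0 < y ∧ 0 < z ∧ x ^ 2 + y ^ 2 = z ^ 2 ∧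
    3 * ∑ i, m (A i) ^ 2 - ε ≤ ∑ i, (m {n | x * n ∈ A i ∧ y * n ∈ A i} +
      m {n | x * n ∈ A i ∧ z * n ∈ A i} + m {n | y * n ∈ A i ∧ z * n ∈ A i})

/-- Colourings without monochromatic triple. -/
def Final_Col : Prop := ∀ m : Set ℕ → ℝ, IsInvMean m → ∀ (r : ℕ) (c : ℕ → Fin r),
  (¬ ∃ x y z : ℕ, 0 < x ∧ 0 < y ∧ 0 < z ∧ x ^ 2 + y ^ 2 = z ^ 2 ∧ c x = c y ∧ c y = c z) →
  ∑ i, m {n | c n = i} ^ 2 ≤ 1 / 3

/-- Sets without triple. -/
def Final_Set : Prop := ∀ m : Set ℕ → ℝ, IsInvMean m → ∀ A : Set ℕ,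
  (¬ ∃ x y z : ℕ, 0 < x ∧ 0 < y ∧ 0 < z ∧ x ^ 2 + y ^ 2 = z ^ 2 ∧ x ∈ A ∧ y ∈ A ∧ z ∈ A) →
  m A ≤ 1 / 2

/-- (D), (E): the frame. -/
def St_D : Prop := St_B → St_C → Final_Gen

end Pool.Agent.Work.MP_0f91f8_co.COL
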